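import Pool.Agent.Lib.MP_b9e19b_mp.Small.Assembly
import Pool.Agent.Lib.MP_b9e19b_mp.Cert.Small45
import Pool.Agent.Lib.MP_b9e19b_mp.Cert.Small6
import Pool.Agent.Lib.MP_b9e19b_mp.Cert.Small7
import Pool.Agent.Lib.MP_b9e19b_mp.Small.Tri.No8
import Pool.Agent.Lib.MP_b9e19b_mp.Small.Tri.No9

set_option autoImplicit false

/-!
# Moeckel's question Q1 for every `N ≥ 3`

Spectral stability of a relative equilibrium of equal masses implies the necessary conditions `Nec`:
with `T = ∑_{j≠k} r_jk⁻³` (unit masses, `ω = 1`) the squares of the nontrivial frequencies have the sum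
`s = 2N - 3 - T ≥ 0`, their squares have the sum `p4` with `s² ≤ (2N - 4) p4`, and the quadratic pencil
is nonnegative above the largest frequency. For `N = 4, 5, 6, 7` a kernel-checked branch and bound
over boxes of mutual distances shows that no configuration satisfies these conditions (for `N = 7`
large configurations are excluded by a three-point certificate); for `N = 8, 9` kernel-checked
three-point certificates (sums over triangles, pinned positive definite kernels, the equations of the
central configuration and pair tests of the pencil) do; for `N ≥ 10` see `TenOrMore`. The passage to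
an open neighbourhood is compactness.
-/

namespace Pool.Agent.Results.MP_b9e19b_mp.AllN

open RelEqN RelEqN.Small

theorem result (N : ℕ) (hN : 3 ≤ N) :
    ∃ U : Set (Fin N → ℝ), IsOpen U ∧ (∀ c : ℝ, 0 < c → (fun _ => c) ∈ U) ∧
      (∀ m ∈ U, ∀ j, 0 < m j) ∧
      ∀ m ∈ U, ∀ (ω : ℝ) (q : Fin N → ℂ), IsRelEq m ω q → ¬ SpectrallyStable m ω q := by
  refine q1_of N hN ?_
  intro h9
  interval_cases N
  · exact Spec.stmtN3
  · exact noNec4
  · exact noNec5
  · exact noNec6
  · exact noNec7
  · exact Tri.noNec8
  · exact Tri.noNec9

end Pool.Agent.Results.MP_b9e19b_mp.AllN
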