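import Pool.Agent.Lib.MP_b9e19b_mp.Small.Growth
import Pool.Agent.Lib.MP_b9e19b_mp.Cert.Small45
import Pool.Agent.Lib.MP_b9e19b_mp.Cert.Small6
import Pool.Agent.Lib.MP_b9e19b_mp.Cert.Small7
import Pool.Agent.Lib.MP_b9e19b_mp.Small.Tri.No8
import Pool.Agent.Lib.MP_b9e19b_mp.Small.Tri.No9

set_option autoImplicit false

/-!
# Moeckel's question Q1 for every `N ≥ 3`, with neighbourhoods that grow with `N`

Spectral stability of a relative equilibrium of equal masses implies the necessary conditions `Nec`:
with `T = ∑_{j≠k} r_jk⁻³` (unit masses, `ω = 1`) the squares of the nontrivial frequencies have the sum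
`s = 2N - 3 - T ≥ 0`, their squares have the sum `p4` with `s² ≤ (2N - 4) p4`, and the quadratic pencil
is nonnegative above the largest frequency. For `N = 4, 5, 6, 7` a kernel-checked branch and bound
over boxes of mutual distances shows that no configuration satisfies these conditions (for `N = 7`
large configurations are excluded by a three-point certificate); for `N = 8, 9` kernel-checked
three-point certificates (sums over triangles, pinned positive definite kernels, the equations of the
central configuration and pair tests of the pencil) do; for `N ≥ 10` see `TenOrMore`. The passage to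
an open neighbourhood is compactness.

For large `N` and arbitrary masses with sum `1`, `ω = 1` and largest mass `η`, average doubling in the
plane (`b ↦ b ∑ m_j m_k exp (-b r_jk²)` is increasing) and the virial identity give
`∑_{j≠k} m_j m_k r_jk⁻³ ≥ const η^(-1/2)`, and the trace inequality bounds the left side by `2 N η`.
-/

namespace Pool.Agent.Results.MP_b9e19b_mp.Dominance

open RelEqN RelEqN.Small

/-- The mass vectors whose masses are all positive and less than `1 + c N^(1/3)` times the mean mass:
`N m_j < (1 + c N^(1/3)) (m_1 + ... + m_N)` for all `j`. -/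
def near (c : ℝ) (N : ℕ) : Set (Fin N → ℝ) :=
  {m | ∀ j, 0 < m j ∧ N * m j < (1 + c * (N : ℝ) ^ ((1 : ℝ) / 3)) * ∑ k, m k}

theorem result : ∃ c : ℝ, 0 < c ∧ ∀ N : ℕ, 3 ≤ N →
    IsOpen (near c N) ∧ (∀ a : ℝ, 0 < a → (fun _ => a) ∈ near c N) ∧
      ∀ m ∈ near c N, ∀ (ω : ℝ) (q : Fin N → ℂ),
        IsRelEq m ω q → ¬ SpectrallyStable m ω q := by
  have hQ : ∀ N, 3 ≤ N → N ≤ 9 → Q1 N := by
    intro N hN h9
    refine q1_of N hN ?_
    intro _
    interval_cases N
    · exact Spec.stmtN3
    · exact noNec4
    · exact noNec5
    · exact noNec6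
    · exact noNec7
    · exact Tri.noNec8
    · exact Tri.noNec9
  obtain ⟨c, hc, hmain⟩ := Growth.dominance hQ
  refine ⟨c, hc, fun N hN => ⟨?_, ?_, ?_⟩⟩
  · have h : near c N = ⋂ j : Fin N, {m : Fin N → ℝ | 0 < m j ∧
        N * m j < (1 + c * (N : ℝ) ^ ((1 : ℝ) / 3)) * ∑ k, m k} := by
      ext m
      simp [near]
    rw [h]
    apply isOpen_iInter_of_finite
    intro j
    apply IsOpen.inter
    · exact isOpen_lt continuous_const (continuous_apply j)
    · exact isOpen_lt (continuous_const.mul (continuous_apply j))
        (continuous_const.mul (continuous_finsetSum _ fun k _ => continuous_apply k))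
  · intro a ha j
    refine ⟨ha, ?_⟩
    simp only [Finset.sum_const, Finset.card_univ, Fintype.card_fin, nsmul_eq_mul]
    have hN0 : (0 : ℝ) < N := by
      have : (3 : ℝ) ≤ N := by exact_mod_cast hN
      linarith
    have hu : 0 < (N : ℝ) ^ ((1 : ℝ) / 3) := Real.rpow_pos_of_pos hN0 _
    have h1 : 0 < c * (N : ℝ) ^ ((1 : ℝ) / 3) * (N * a) := by positivity
    linarith
  · intro m hm ω q hq
    exact hmain N hN m (fun j => (hm j).1) (fun j => (hm j).2) ω q hq

end Pool.Agent.Results.MP_b9e19b_mp.Dominance
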